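import Pool.Agent.Helper14_DK.Stmts

/-!
# DK, module BND: derivatives of convolutions with dilated kernels
-/

set_option autoImplicit false

namespace Pool.Agent.DK.H68

open MeasureTheory Complex Set Metric
open scoped ContDiff Topology Convolution

/-- the upper bound for convolutions is integrable -/
theorem integrable_bound {n : ℕ} {W : Type} [NormedAddCommGroup W] {f : E n → ℂ}
    (hf : LocallyIntegrable f volume) {g : E n → W} (hg : Continuous g) (hc : HasCompactSupport g)
    (z : E n) : Integrable (fun w => ‖f w‖ * ‖g (z - w)‖) := by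
  have h1 : Continuous (fun w : E n => ‖g (z - w)‖) :=
    (hg.comp (continuous_const.sub continuous_id)).norm
  have h2 : HasCompactSupport (fun w : E n => ‖g (z - w)‖) := by
    have h3 : IsCompact ((fun w : E n => z - w) '' tsupport g) :=
      hc.image (continuous_const.sub continuous_id)
    refine HasCompactSupport.intro h3 fun w hw => ?_
    have : z - w ∉ tsupport g := by
      intro h
      exact hw ⟨z - w, h, by simp⟩
    rw [image_eq_zero_of_notMem_tsupport this, norm_zero]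
  have hn : LocallyIntegrable (fun w => ‖f w‖) volume := by
    intro x
    obtain ⟨s, hs, h⟩ := hf x
    exact ⟨s, hs, h.norm⟩
  have := hn.integrable_smul_left_of_hasCompactSupport h1 h2
  refine this.congr (Filter.Eventually.of_forall fun w => ?_)
  show ‖g (z - w)‖ • ‖f w‖ = _
  rw [smul_eq_mul, mul_comm]

/-- derivatives of convolutions -/
theorem norm_iteratedFDeriv_conv {n : ℕ} (l : ℕ) : ∀ (W W' : Type) [NormedAddCommGroup W]
    [NormedSpace ℝ W] [NormedAddCommGroup W'] [NormedSpace ℝ W']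
    (L : ℂ →L[ℝ] W →L[ℝ] W') (f : E n → ℂ) (g : E n → W), ‖L‖ ≤ 1 →
    LocallyIntegrable f volume → ContDiff ℝ ∞ g → HasCompactSupport g → ∀ z,
    ‖iteratedFDeriv ℝ l (f ⋆[L, volume] g) z‖ ≤ ∫ w, ‖f w‖ * ‖iteratedFDeriv ℝ l g (z - w)‖ := by
  induction l with
  | zero =>
    intro W W' _ _ _ _ L f g hL hf hg hc z
    rw [norm_iteratedFDeriv_zero]
    simp only [norm_iteratedFDeriv_zero]
    refine (norm_integral_le_integral_norm _).trans ?_
    refine integral_mono_of_nonneg (Filter.Eventually.of_forall fun w => norm_nonneg _)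
      (integrable_bound hf hg.continuous hc z) (Filter.Eventually.of_forall fun w => ?_)
    show ‖L (f w) (g (z - w))‖ ≤ ‖f w‖ * ‖g (z - w)‖
    calc ‖L (f w) (g (z - w))‖ ≤ ‖L (f w)‖ * ‖g (z - w)‖ := (L (f w)).le_opNorm _
      _ ≤ (‖L‖ * ‖f w‖) * ‖g (z - w)‖ :=
        mul_le_mul_of_nonneg_right (L.le_opNorm _) (norm_nonneg _)
      _ ≤ (1 * ‖f w‖) * ‖g (z - w)‖ :=
        mul_le_mul_of_nonneg_right (mul_le_mul_of_nonneg_right hL (norm_nonneg _)) (norm_nonneg _)
      _ = ‖f w‖ * ‖g (z - w)‖ := by rw [one_mul]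
  | succ l ih =>
    intro W W' _ _ _ _ L f g hL hf hg hc z
    have hfd : fderiv ℝ (f ⋆[L, volume] g) = (f ⋆[L.precompR (E n), volume] fderiv ℝ g) := by
      funext x
      exact (hc.hasFDerivAt_convolution_right L hf (hg.of_le (by simp)) x).fderiv
    rw [← norm_iteratedFDeriv_fderiv, hfd]
    have h := ih (E n →L[ℝ] W) (E n →L[ℝ] W') (L.precompR (E n)) f (fderiv ℝ g)
      ((ContinuousLinearMap.norm_precompR_le (E n) L).trans hL) hf
      (hg.fderiv_right (m := ∞) (by simp)) (hc.fderiv ℝ) z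
    refine h.trans (le_of_eq ?_)
    congr 1
    funext w
    rw [norm_iteratedFDeriv_fderiv]

/-- derivatives of dilated kernels -/
theorem norm_iteratedFDeriv_scl {n : ℕ} {g : E n → ℂ} (hg : ContDiff ℝ ∞ g) {δ : ℝ} (hδ : 0 < δ)
    (l : ℕ) (y : E n) : ‖iteratedFDeriv ℝ l (scl δ g) y‖ ≤
      (δ⁻¹) ^ (2 * n + l) * ‖iteratedFDeriv ℝ l g (δ⁻¹ • y)‖ := by
  set L : E n →L[ℝ] E n := δ⁻¹ • ContinuousLinearMap.id ℝ (E n) with hL
  have hLn : ‖L‖ ≤ δ⁻¹ := by
    rw [hL, norm_smul, Real.norm_of_nonneg (inv_pos.mpr hδ).le]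
    have := ContinuousLinearMap.norm_id_le (𝕜 := ℝ) (E := E n)
    calc δ⁻¹ * ‖ContinuousLinearMap.id ℝ (E n)‖ ≤ δ⁻¹ * 1 :=
          mul_le_mul_of_nonneg_left this (inv_pos.mpr hδ).le
      _ = δ⁻¹ := mul_one _
  have e : scl δ g = ((δ⁻¹) ^ (2 * n) : ℝ) • (g ∘ L) := by
    funext y
    show (((δ⁻¹) ^ (2 * n) : ℝ) : ℂ) * g (δ⁻¹ • y) = ((δ⁻¹) ^ (2 * n) : ℝ) • g (L y)
    rw [Complex.real_smul]
    rfl
  have hcomp : ContDiff ℝ ∞ (g ∘ L) := hg.comp L.contDiff
  rw [e, iteratedFDeriv_const_smul_apply (hcomp.of_le (by exact_mod_cast le_top)).contDiffAt,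
    norm_smul,
    L.iteratedFDeriv_comp_right hg y (by exact_mod_cast le_top)]
  rw [Real.norm_of_nonneg (by positivity), pow_add, mul_assoc]
  refine mul_le_mul_of_nonneg_left ?_ (by positivity)
  refine (ContinuousMultilinearMap.norm_compContinuousLinearMap_le _ _).trans ?_
  rw [Finset.prod_const, Finset.card_univ, Fintype.card_fin, mul_comm]
  have : L y = δ⁻¹ • y := rfl
  rw [this]
  exact mul_le_mul_of_nonneg_right (pow_le_pow_left₀ (norm_nonneg _) hLn l) (norm_nonneg _)

theorem bnd (hCNV : CnvStmt) : BndStmt := by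
  intro n g hg hsupp l
  have hts : tsupport g ⊆ closedBall (0 : E n) 1 := by
    refine closure_minimal (fun y hy => ?_) isClosed_closedBall
    rw [mem_closedBall_zero_iff]
    by_contra hc
    push Not at hc
    exact hy (hsupp y hc.le)
  have hcs : HasCompactSupport g :=
    (isCompact_closedBall (0 : E n) 1).of_isClosed_subset (isClosed_tsupport g) hts
  obtain ⟨M, hM⟩ := (hg.continuous_iteratedFDeriv (m := l)
    (by exact_mod_cast le_top)).bounded_above_of_compact_support (hcs.iteratedFDeriv l)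
  have hM0 : 0 ≤ M := (norm_nonneg _).trans (hM 0)
  set V : ℝ := (volume (closedBall (0 : E n) 1)).toReal with hV
  refine ⟨M * Real.sqrt V, by positivity, ?_⟩
  intro f hf δ hδ hδ1
  have hloc : LocallyIntegrable f volume := hf.locallyIntegrable (by norm_num)
  have hinv : 0 < δ⁻¹ := inv_pos.mpr hδ
  -- the dilated kernel
  have hsm : ContDiff ℝ ∞ (scl δ g) := by
    unfold scl
    exact contDiff_const.mul (hg.comp (contDiff_const_smul _))
  have hscl0 : ∀ y, y ∉ closedBall (0 : E n) δ → scl δ g y = 0 := by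
    intro y hy
    rw [mem_closedBall_zero_iff] at hy
    push Not at hy
    unfold scl
    rw [hsupp, mul_zero]
    rw [norm_smul, Real.norm_of_nonneg hinv.le, inv_mul_eq_div, one_le_div hδ]
    exact hy.le
  have hscc : HasCompactSupport (scl δ g) :=
    HasCompactSupport.intro (isCompact_closedBall (0 : E n) δ) hscl0
  have hD0 : ∀ y, y ∉ closedBall (0 : E n) 1 → iteratedFDeriv ℝ l (scl δ g) y = 0 := by
    intro y hy
    have h1 : tsupport (scl δ g) ⊆ closedBall (0 : E n) 1 := by
      refine closure_minimal (fun y hy => ?_) isClosed_closedBall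
      by_contra hc
      refine hy (hscl0 y fun h => hc ?_)
      exact closedBall_subset_closedBall hδ1 h
    have h2 := support_iteratedFDeriv_subset (𝕜 := ℝ) (f := scl δ g) l
    by_contra hc
    exact hy (h1 (h2 hc))
  refine ⟨(hCNV n f (scl δ g) hloc hsm hscc).1, fun z => ?_⟩
  have e : conv f (scl δ g) = (f ⋆[ContinuousLinearMap.mul ℝ ℂ, volume] (scl δ g)) := by
    funext z
    rfl
  rw [e]
  refine (norm_iteratedFDeriv_conv l ℂ ℂ (ContinuousLinearMap.mul ℝ ℂ) f (scl δ g)
    (ContinuousLinearMap.opNorm_mul_le ℝ ℂ) hloc hsm hscc z).trans ?_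
  -- pointwise bound
  set B : Set (E n) := closedBall z 1 with hB
  have hBm : MeasurableSet B := isClosed_closedBall.measurableSet
  have hpt : ∀ w, ‖f w‖ * ‖iteratedFDeriv ℝ l (scl δ g) (z - w)‖ ≤
      ((δ⁻¹) ^ (2 * n + l) * M) * (‖f w‖ * B.indicator (fun _ => (1 : ℝ)) w) := by
    intro w
    by_cases hw : w ∈ B
    · rw [indicator_of_mem hw, mul_one]
      have h1 := norm_iteratedFDeriv_scl hg hδ l (z - w)
      have h2 : ‖iteratedFDeriv ℝ l (scl δ g) (z - w)‖ ≤ (δ⁻¹) ^ (2 * n + l) * M :=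
        h1.trans (mul_le_mul_of_nonneg_left (hM _) (by positivity))
      calc ‖f w‖ * ‖iteratedFDeriv ℝ l (scl δ g) (z - w)‖
          ≤ ‖f w‖ * ((δ⁻¹) ^ (2 * n + l) * M) := mul_le_mul_of_nonneg_left h2 (norm_nonneg _)
        _ = _ := by ring
    · rw [indicator_of_notMem hw, mul_zero, mul_zero]
      have : z - w ∉ closedBall (0 : E n) 1 := by
        intro h
        apply hw
        rw [hB, mem_closedBall, dist_comm, dist_eq_norm]
        rwa [mem_closedBall_zero_iff] at h
      rw [hD0 _ this, norm_zero, mul_zero]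
  have hBfin : volume B ≠ ⊤ := (isCompact_closedBall z 1).measure_lt_top.ne
  have hind : MemLp (B.indicator (fun _ => (1 : ℝ))) 2 (volume : Measure (E n)) :=
    memLp_indicator_const 2 hBm 1 (Or.inr hBfin)
  have hint : Integrable (fun w => ‖f w‖ * B.indicator (fun _ => (1 : ℝ)) w)
      (volume : Measure (E n)) := hf.norm.integrable_mul hind
  have hVB : (volume B).toReal = V := by
    rw [hV, hB, Measure.addHaar_closedBall_center]
  have hhol := integral_mul_le_Lp_mul_Lq_of_nonneg (μ := (volume : Measure (E n)))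
    (p := 2) (q := 2) Real.HolderConjugate.two_two
    (f := fun w => ‖f w‖) (g := B.indicator (fun _ => (1 : ℝ)))
    (Filter.Eventually.of_forall fun w => norm_nonneg _)
    (Filter.Eventually.of_forall fun w => indicator_nonneg (fun _ _ => zero_le_one) w)
    (by rw [show ENNReal.ofReal 2 = 2 by simp]; exact hf.norm)
    (by rw [show ENNReal.ofReal 2 = 2 by simp]; exact hind)
  have e1 : ∫ w, ‖f w‖ ^ (2 : ℝ) = ∫ w, ‖f w‖ ^ 2 := by
    congr 1
    funext w
    exact Real.rpow_two _
  have e2 : ∫ w, (B.indicator (fun _ => (1 : ℝ)) w) ^ (2 : ℝ) = V := by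
    have : (fun w => (B.indicator (fun _ => (1 : ℝ)) w) ^ (2 : ℝ)) =
        B.indicator (fun _ => (1 : ℝ)) := by
      funext w
      rw [Real.rpow_two]
      by_cases hw : w ∈ B
      · rw [indicator_of_mem hw]; norm_num
      · rw [indicator_of_notMem hw]; norm_num
    rw [this, integral_indicator hBm, setIntegral_const, smul_eq_mul, mul_one, ← hVB]
    rfl
  rw [e1, e2, ← Real.sqrt_eq_rpow, ← Real.sqrt_eq_rpow] at hhol
  calc ∫ w, ‖f w‖ * ‖iteratedFDeriv ℝ l (scl δ g) (z - w)‖
      ≤ ∫ w, ((δ⁻¹) ^ (2 * n + l) * M) * (‖f w‖ * B.indicator (fun _ => (1 : ℝ)) w) :=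
        integral_mono_of_nonneg (Filter.Eventually.of_forall fun w => by positivity)
          (hint.const_mul _) (Filter.Eventually.of_forall hpt)
    _ = ((δ⁻¹) ^ (2 * n + l) * M) * ∫ w, (‖f w‖ * B.indicator (fun _ => (1 : ℝ)) w) :=
        integral_const_mul _ _
    _ ≤ ((δ⁻¹) ^ (2 * n + l) * M) * (Real.sqrt (∫ w, ‖f w‖ ^ 2) * Real.sqrt V) :=
        mul_le_mul_of_nonneg_left hhol (by positivity)
    _ = M * Real.sqrt V * (δ⁻¹) ^ (2 * n + l) * Real.sqrt (∫ w, ‖f w‖ ^ 2) := by ring

end Pool.Agent.DK.H68
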