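import Pool.Agent.Helper14_DK.Stmts

/-!
# DK, module NICE: normalised defining functions
-/

set_option autoImplicit false

namespace Pool.Agent.DK.H68

open MeasureTheory Complex Set Metric
open scoped ContDiff Topology

/-- a continuous function which is positive on a compact set is bounded below -/
theorem pos_bound {n : ℕ} {K : Set (E n)} (hK : IsCompact K) {f : E n → ℝ} (hf : ContinuousOn f K)
    (h : ∀ z ∈ K, 0 < f z) : ∃ c : ℝ, 0 < c ∧ ∀ z ∈ K, c ≤ f z := by
  rcases K.eq_empty_or_nonempty with rfl | hne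
  · exact ⟨1, one_pos, fun z hz => hz.elim⟩
  · obtain ⟨z₀, hz₀, hmin⟩ := hK.exists_isMinOn hne hf
    exact ⟨f z₀, h z₀ hz₀, fun z hz => hmin hz⟩

theorem nice : NiceStmt := by
  intro n _ ρ hρ hb hreg hlev
  -- the zero set is in the closure of the domain
  have hzero : ∀ p, ρ p = 0 → p ∈ closure {z | ρ z < 0} := by
    intro p hp
    by_contra hc
    have hmin : IsLocalMin ρ p := by
      have h1 : (closure {z | ρ z < 0})ᶜ ∈ 𝓝 p := isClosed_closure.isOpen_compl.mem_nhds hc
      filter_upwards [h1] with y hy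
      rw [hp]
      by_contra hlt
      push Not at hlt
      exact hy (subset_closure hlt)
    exact hreg p hp hmin.fderiv_eq_zero
  obtain ⟨R, hR, hsub⟩ : ∃ R : ℝ, 0 < R ∧ closure {z | ρ z < 0} ⊆ ball 0 R := by
    obtain ⟨R, hR⟩ := hb.closure.subset_ball (0 : E n)
    exact ⟨max R 1, by positivity, hR.trans (ball_subset_ball (le_max_left _ _))⟩
  have hpos : ∀ z, z ∉ ball (0 : E n) R → 0 < ρ z := by
    intro z hz
    have h1 : z ∉ closure {z | ρ z < 0} := fun h => hz (hsub h)
    have h2 : ¬ ρ z < 0 := fun h => h1 (subset_closure h)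
    have h3 : ρ z ≠ 0 := fun h => h1 (hzero z h)
    exact lt_of_le_of_ne (not_lt.mp h2) (Ne.symm h3)
  let χ : ContDiffBump (0 : E n) := ⟨R, R + 1, hR, by linarith⟩
  have hχ1 : ∀ z ∈ closedBall (0 : E n) R, χ z = 1 := fun z hz => χ.one_of_mem_closedBall hz
  have hχ0 : ∀ z, z ∉ closedBall (0 : E n) (R + 1) → χ z = 0 := by
    intro z hz
    apply χ.zero_of_le_dist
    rw [mem_closedBall] at hz
    push Not at hz
    exact hz.le
  set ρ' : E n → ℝ := fun z => χ z * ρ z + (1 - χ z) with hρ'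
  have hsm : ContDiff ℝ ∞ ρ' :=
    ((χ.contDiff.mul hρ)).add (contDiff_const.sub χ.contDiff)
  have hUeq : ∀ z ∈ ball (0 : E n) R, ρ' z = ρ z := by
    intro z hz
    rw [hρ']
    simp only
    rw [hχ1 z (ball_subset_closedBall hz)]
    ring
  have hout : ∀ z, z ∉ ball (0 : E n) R → 0 < ρ' z := by
    intro z hz
    have h1 := hpos z hz
    have h2 : 0 ≤ χ z := χ.nonneg
    have h3 : χ z ≤ 1 := χ.le_one
    show 0 < χ z * ρ z + (1 - χ z)
    by_cases h4 : χ z = 0
    · rw [h4]; norm_num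
    · have h5 : 0 < χ z := lt_of_le_of_ne h2 (Ne.symm h4)
      have := mul_pos h5 h1
      linarith
  have hfar : ∀ z, z ∉ closedBall (0 : E n) (R + 1) → ρ' z = 1 := by
    intro z hz
    show χ z * ρ z + (1 - χ z) = 1
    rw [hχ0 z hz]
    ring
  have hev : ∀ p ∈ ball (0 : E n) R, ρ' =ᶠ[𝓝 p] ρ := by
    intro p hp
    filter_upwards [isOpen_ball.mem_nhds hp] with z hz
    exact hUeq z hz
  -- lower bound outside of `U`
  obtain ⟨c₁, hc₁, hb₁⟩ := pos_bound (K := closedBall (0 : E n) (R + 1) \ ball 0 R)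
    ((isCompact_closedBall _ _).diff isOpen_ball) hsm.continuous.continuousOn
    (fun z hz => hout z hz.2)
  -- lower bound on the critical set
  have hcl : IsClosed {z : E n | fderiv ℝ ρ' z = 0} :=
    isClosed_eq (hsm.continuous_fderiv (by simp)) continuous_const
  obtain ⟨c₂, hc₂, hb₂⟩ := pos_bound (K := closedBall (0 : E n) (R + 1) ∩ {z | fderiv ℝ ρ' z = 0})
    ((isCompact_closedBall _ _).inter_right hcl) (f := fun z => |ρ' z|)
    hsm.continuous.abs.continuousOn
    (by
      rintro z ⟨hz, hd⟩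
      rw [abs_pos]
      intro h0
      have hzU : z ∈ ball (0 : E n) R := by
        by_contra hc
        exact (hout z hc).ne' h0
      have h1 : ρ z = 0 := by rw [← hUeq z hzU]; exact h0
      apply hreg z h1
      rw [← (hev z hzU).fderiv_eq]
      exact hd)
  set κ₀ : ℝ := min (1 / 2) (min c₁ c₂) with hκ
  have k1 : κ₀ ≤ 1 / 2 := min_le_left _ _
  have k2 : κ₀ ≤ c₁ := (min_le_right _ _).trans (min_le_left _ _)
  have k3 : κ₀ ≤ c₂ := (min_le_right _ _).trans (min_le_right _ _)
  refine ⟨ρ', κ₀, ball 0 R, ⟨hsm, ?_, ?_, ?_, ?_, ?_⟩, isOpen_ball, hsub, hUeq, ?_, ?_⟩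
  · refine HasCompactSupport.intro (isCompact_closedBall (0 : E n) (R + 1)) fun z hz => ?_
    rw [hfar z hz, sub_self]
  · exact lt_min (by norm_num) (lt_min hc₁ hc₂)
  · exact lt_of_le_of_lt k1 (by norm_num)
  · intro p hp hd
    have hpB : p ∈ closedBall (0 : E n) (R + 1) := by
      by_contra hc
      rw [hfar p hc, abs_one] at hp
      linarith
    have := hb₂ p ⟨hpB, hd⟩
    linarith
  · intro p hp w hw1 hw2
    have hpU : p ∈ ball (0 : E n) R := by
      by_contra hc
      exact (hout p hc).ne' hp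
    have h1 : ρ p = 0 := by rw [← hUeq p hpU]; exact hp
    rw [(hev p hpU).fderiv_eq] at hw1 hw2
    rw [((hev p hpU).iteratedFDeriv ℝ 2).eq_of_nhds]
    exact hlev p h1 w hw1 hw2
  · intro z hz
    by_contra hc
    have hz' : ρ' z < κ₀ := hz
    by_cases hB : z ∈ closedBall (0 : E n) (R + 1)
    · have := hb₁ z ⟨hB, hc⟩
      linarith
    · rw [hfar z hB] at hz'
      linarith
  · ext z
    show ρ' z < 0 ↔ ρ z < 0
    by_cases hz : z ∈ ball (0 : E n) R
    · rw [hUeq z hz]
    · constructor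
      · intro h
        exact absurd (hout z hz) (not_lt.mpr h.le)
      · intro h
        exact absurd (hpos z hz) (not_lt.mpr h.le)

end Pool.Agent.DK.H68
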